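import Pool.Agent.Lib.MP_1822da_lc.NB.T12

/-!
# MP_1822da: Borel edge colourings of Schreier graphs, nilpotent groups

Let `(Γ, S)` be a marked group with `Γ` nilpotent and without elements of odd order in `S`, acting
freely with Borel asymptotic separation index at most `1`. If the Borel edge chromatic number of
the Schreier graph is not `|S|`, then `Γ` is a finite extension of `ℤ`.

Idea (`Γ` not virtually cyclic, all elements of `S` of infinite order): modulo inverses `S` is a
disjoint union of stars, with a centre `h` and leaves `a`, and of exceptional triples. For a pair
`(a, h)` the graph of the `a`-edges and `h`-edges is `4`-regular and bipartite. By finitely many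
steps, each a sum of translates of finitely supported weights without vertex sums, its uniform
fractional perfect matching is changed into the perfect matching of every second edge of the
`h`-lines, for both parities, and the one of the cubic graph which remains is changed into the
perfect matching of every second edge of the `a`-lines. Cutting these sums off in the zones around
the Borel set given by the separation index, one gets fractional perfect matchings which are
integral outside a Borel set with finite components, and Hall's theorem makes them integral
everywhere. They let the two parities meet at the borders of the zones.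
-/

namespace Pool.Agent.Results.MP_1822da_lc.NilpotentGroups

open Set MeasureTheory
open Pool.Agent.Lib.MP_1822da_lc

universe u v

/-- **Main theorem.** Let `(Γ, S)` be a marked group with no element of `S` of odd order and let
`Γ` act freely and by Borel maps on the nonempty standard Borel space `X` with Borel asymptotic
separation index at most `1`. If `Γ` is nilpotent and the Borel edge chromatic number of the
Schreier graph is not `|S|` (that is, if it is `|S| + 1`), then `Γ` is a finite extension
of `ℤ`. -/
theorem result {Γ : Type u} [Group Γ] (hnil : Group.IsNilpotent Γ)
    (S : Finset Γ) (hsymm : ∀ g ∈ S, g⁻¹ ∈ S)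
    (h1 : (1 : Γ) ∉ S) (hgen : Subgroup.closure (S : Set Γ) = ⊤)
    (hodd : ∀ g ∈ S, ¬ Odd (orderOf g))
    {X : Type v} [Nonempty X] [MeasurableSpace X] [StandardBorelSpace X] [MulAction Γ X]
    (hmeas : ∀ γ : Γ, Measurable fun x : X => γ • x)
    (hfree : ∀ (γ : Γ) (x : X), γ • x = x → γ = 1)
    (hasi : BorelAsiLe (schreierGraph S X) 1)
    (hchi : borelChromaticIndex (schreierGraph S X) ≠ (S.card : ℕ∞)) :
    IsFiniteExtensionOfInt Γ :=
  MP1822N.nilpotent_index2 hmeas hfree hsymm h1 hgen hodd hasi hchi

end Pool.Agent.Results.MP_1822da_lc.NilpotentGroups
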