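import Pool.Agent.Lib.MP_1822da_lc.VC

/-!
# MP_1822da: Borel edge colourings of Schreier graphs, virtually cyclic groups

Let `(Γ, S)` be a marked group without elements of odd order in `S` acting freely with Borel
asymptotic separation index at most `1`. If `Γ` is virtually cyclic and the Borel edge chromatic
number of the Schreier graph is not `|S|`, then `Γ` is a finite extension of `ℤ`.

Idea: if `Γ` is not a finite extension of `ℤ`, some `s ∈ S` of finite order inverts an element of
a normal infinite cyclic subgroup, and each `g ∈ S` of infinite order lies with `s` in a finitely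
twisted pair: a finite subgroup `K` containing `s` such that `g ^ n * k * g ^ (-n) ∈ K` for all
`n` or `g ^ n * k * g ^ n ∈ K` for all `n`, for each `k ∈ K`. The zones around the set given by
the separation index, saturated by `K`, give a `K`-invariant Borel set whose boundary crosses each
`g`-line. The crossing `g`-edges borrow the colour of `s`, and the `s`-edges there take the colour
of `{g, g⁻¹}` which is missing. The segments between two crossings are coloured from one end.
-/

namespace Pool.Agent.Results.MP_1822da_lc.TwoEnded

open Set MeasureTheory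
open Pool.Agent.Lib.MP_1822da_lc Pool.Agent.MP1822V

universe u v

/-- **Main theorem.** Let `(Γ, S)` be a marked group with no element of `S` of odd order and let
`Γ` act freely and by Borel maps on the nonempty standard Borel space `X` with Borel asymptotic
separation index at most `1`. If `Γ` is virtually cyclic and the Borel edge chromatic number of
the Schreier graph is not `|S|` (that is, if it is `|S| + 1`), then `Γ` is a finite extension
of `ℤ`. -/
theorem result {Γ : Type u} [Group Γ] (hv : IsVirtuallyCyclic Γ)
    (S : Finset Γ) (hsymm : ∀ g ∈ S, g⁻¹ ∈ S)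
    (h1 : (1 : Γ) ∉ S) (hgen : Subgroup.closure (S : Set Γ) = ⊤)
    (hodd : ∀ g ∈ S, ¬ Odd (orderOf g))
    {X : Type v} [Nonempty X] [MeasurableSpace X] [StandardBorelSpace X] [MulAction Γ X]
    (hmeas : ∀ γ : Γ, Measurable fun x : X => γ • x)
    (hfree : ∀ (γ : Γ) (x : X), γ • x = x → γ = 1)
    (hasi : BorelAsiLe (schreierGraph S X) 1)
    (hchi : borelChromaticIndex (schreierGraph S X) ≠ (S.card : ℕ∞)) :
    IsFiniteExtensionOfInt Γ := by
  by_contra hno
  apply hchi
  have hBC : MP1822T.BC X S := by
    refine upper_bound hsymm hgen hsymm hodd hmeas hfree hasi fun g hg hgo => ?_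
    obtain ⟨c, hco, hfi, hconj⟩ := exists_core hv hgo
    have hex : ∃ s ∈ S, s * c * s⁻¹ = c⁻¹ := by
      by_contra hcon
      push Not at hcon
      apply hno
      refine finiteExtension_of_central hco hfi ?_
      have hle : (⊤ : Subgroup Γ) ≤ Subgroup.centralizer {c} := by
        rw [← hgen, Subgroup.closure_le]
        intro s hs
        rw [SetLike.mem_coe, Subgroup.mem_centralizer_singleton_iff]
        exact mul_inv_eq_iff_eq_mul.1 ((hconj s).resolve_right (hcon s hs))
      intro h
      exact Subgroup.mem_centralizer_singleton_iff.1 (hle (Subgroup.mem_top h))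
    obtain ⟨s, hs, hsc⟩ := hex
    obtain ⟨K, hKf, hK, hsK⟩ := exists_twist hv hgo (finite_of_reverse hco hfi hsc)
    exact ⟨K, hKf, hK, s, hs, hsK⟩
  refine le_antisymm ?_ (card_le_borelChromaticIndex hsymm h1 hfree)
  obtain ⟨col, c1, c2, c3, c4⟩ := hBC
  exact borelChromaticIndex_le hsymm hmeas hfree col (fun γ hγ δ => c1 γ hγ δ) c2 c3 c4

end Pool.Agent.Results.MP_1822da_lc.TwoEnded
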